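import Pool.Agent.Helper76.TL.StC

/-!
# Project TL, module BALE: transport to the balanced form, level `4 * 5^n`
-/

set_option autoImplicit false

namespace Pool.Agent.Helper36.TL

open Pool.Agent.Helper76.TL Pool.Agent.Helper4.TL Pool.Agent.Helper14.W5
open Pool.Agent.Helper14.CV (Homog EqC act)

private theorem fne_Bal (k : ℕ) : (5 : ℤ) ^ k ≠ 0 := pow_ne_zero _ (by norm_num)

private theorem ne_of_Bal {k : ℕ} {p q : ℤ} (h : p ≠ 0 ∨ q ≠ 0) : p ≠ 0 ∨ (5 : ℤ) ^ k * q ≠ 0 := by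
  rcases h with h | h
  · exact Or.inl h
  · exact Or.inr (mul_ne_zero (fne_Bal k) h)

private theorem homogH_Bal {k : ℕ} {G : ℤ → ℤ → ℂ} (hG : Homog G) : Homog (act 1 0 0 (5 ^ k) G) := by
  intro l p q hl hpq
  simp only [act]
  have h := hG l p (5 ^ k * q) hl (ne_of_Bal hpq)
  rw [show 1 * (l * p) + 0 * (l * q) = l * p by ring,
    show 0 * (l * p) + 5 ^ k * (l * q) = l * (5 ^ k * q) by ring, h,
    show 1 * p + 0 * q = p by ring, show 0 * p + 5 ^ k * q = 5 ^ k * q by ring]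

private theorem symH_Bal {k s s' : ℕ} {G : ℤ → ℤ → ℂ} (hs : s' ≤ k + s) (hG : SymE 5 0 s' G) :
    SymE 5 k s (act 1 0 0 (5 ^ k) G) := by
  have hdet : ¬ (2 : ℤ) ∣ 1 * 5 ^ k - 0 * 0 := by
    rw [one_mul, mul_zero, sub_zero]
    intro h
    have h5 : (2 : ℤ) ∣ 5 := Int.prime_two.dvd_of_dvd_pow h
    revert h5
    decide
  refine hG.act hdet ?_
  intro a b c d hd hb hc
  rw [Nat.cast_ofNat] at hb hc
  obtain ⟨b', rfl⟩ := hb
  obtain ⟨c', rfl⟩ := hc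
  refine ⟨a, b', 5 ^ k * (5 ^ s * c'), d, by linear_combination hd, ?_, ?_, ?_, ?_, ?_, ?_⟩
  · rw [pow_zero]
    exact one_dvd _
  · rw [Nat.cast_ofNat]
    have h1 : (5 : ℤ) ^ s' ∣ 5 ^ (k + s) := pow_dvd_pow 5 hs
    have h2 : (5 : ℤ) ^ k * (5 ^ s * c') = 5 ^ (k + s) * c' := by rw [pow_add]; ring
    rw [h2]
    exact Dvd.dvd.mul_right h1 c'
  · ring
  · ring
  · ring
  · ring

/-- The general transport of a relation. -/
private theorem trans_Bal {k : ℕ} {H' K X : ℤ → ℤ → ℂ}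
    (hK : ∀ p q : ℤ, (p ≠ 0 ∨ q ≠ 0) → H' p q = X p (5 ^ k * q))
    (h : EqC X K) : EqC H' (act 1 0 0 (5 ^ k) K) := by
  obtain ⟨C, hC⟩ := h
  refine ⟨C, ?_⟩
  intro p q hpq
  rw [hK p q hpq, hC p (5 ^ k * q) (ne_of_Bal hpq)]
  simp only [act]
  rw [show 1 * p + 0 * q = p by ring, show 0 * p + 5 ^ k * q = 5 ^ k * q by ring]

private theorem aux1_Bal {j : ℕ} {G : ℤ → ℤ → ℂ} (hG : Homog G) (t : ℤ) {p q : ℤ}
    (hpq : p ≠ 0 ∨ q ≠ 0) :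
    act 1 (t * 5 ^ j) 0 1 (act 1 0 0 (5 ^ (j + 1)) G) p q = act 5 t 0 5 G p (5 ^ (j + 1) * q) := by
  simp only [act]
  have hne : p + t * 5 ^ j * q ≠ 0 ∨ 5 ^ (j + 1) * q ≠ 0 := by
    by_cases hq : q = 0
    · left
      rw [hq, mul_zero, add_zero]
      rcases hpq with h | h
      · exact h
      · exact absurd hq h
    · exact Or.inr (mul_ne_zero (fne_Bal _) hq)
  have h1 := hG 5 (p + t * 5 ^ j * q) (5 ^ (j + 1) * q) (by norm_num) hne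
  rw [show 1 * (1 * p + t * 5 ^ j * q) + 0 * (0 * p + 1 * q) = p + t * 5 ^ j * q by ring,
    show 0 * (1 * p + t * 5 ^ j * q) + 5 ^ (j + 1) * (0 * p + 1 * q) = 5 ^ (j + 1) * q by ring,
    show 5 * p + t * (5 ^ (j + 1) * q) = 5 * (p + t * 5 ^ j * q) by rw [pow_succ]; ring,
    show 0 * p + 5 * (5 ^ (j + 1) * q) = 5 * (5 ^ (j + 1) * q) by ring, h1]

private theorem sum_app (n : ℕ) (F : ℕ → ℤ → ℤ → ℂ) (p q : ℤ) :
    (∑ i ∈ Finset.range n, F i) p q = ∑ i ∈ Finset.range n, F i p q := by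
  rw [Finset.sum_apply, Finset.sum_apply]

private theorem rel1_Bal {k : ℕ} (hk : 1 ≤ k) {G : ℤ → ℤ → ℂ} (hG : Homog G)
    (h : EqC (∑ i ∈ Finset.range 5, act ((5 : ℕ) : ℤ) (2 * i) 0 ((5 : ℕ) : ℤ) G) 0) :
    EqC (∑ i ∈ Finset.range 5, act 1 (2 * i * 5 ^ (k - 1)) 0 1 (act 1 0 0 (5 ^ k) G)) 0 := by
  obtain ⟨j, rfl⟩ : ∃ j, k = j + 1 := ⟨k - 1, by omega⟩
  refine trans_Bal (k := j + 1) ?_ h
  intro p q hpq
  rw [Nat.add_sub_cancel, sum_app, sum_app]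
  refine Finset.sum_congr rfl fun i _ => ?_
  rw [aux1_Bal hG _ hpq, Nat.cast_ofNat]

private theorem aux2_Bal {k j l : ℕ} (hj : k + j = l) {G : ℤ → ℤ → ℂ} (t : ℤ) (p q : ℤ) :
    act 1 0 (t * 5 ^ j) 1 (act 1 0 0 (5 ^ k) G) p q = act 1 0 (t * 5 ^ l) 1 G p (5 ^ k * q) := by
  simp only [act]
  rw [← hj]
  rw [show 1 * (1 * p + 0 * q) + 0 * (t * 5 ^ j * p + 1 * q) = 1 * p + 0 * (5 ^ k * q) by ring,
    show 0 * (1 * p + 0 * q) + 5 ^ k * (t * 5 ^ j * p + 1 * q)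
      = t * 5 ^ (k + j) * p + 1 * (5 ^ k * q) by rw [pow_add]; ring]

private theorem rel2_Bal {k j l : ℕ} (hj : k + j = l) {G : ℤ → ℤ → ℂ}
    (h : EqC (∑ i ∈ Finset.range 5, act 1 0 (2 * i * ((5 : ℕ) : ℤ) ^ l) 1 G) 0) :
    EqC (∑ i ∈ Finset.range 5, act 1 0 (2 * i * 5 ^ j) 1 (act 1 0 0 (5 ^ k) G)) 0 := by
  refine trans_Bal (k := k) ?_ h
  intro p q _
  rw [sum_app, sum_app]
  refine Finset.sum_congr rfl fun i _ => ?_
  rw [aux2_Bal hj, Nat.cast_ofNat]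

private theorem rel3_Bal {k l : ℕ} {e : ℤ} (he : e ≠ 0) (hl : (5 : ℤ) ^ l = 5 ^ k * (5 ^ k * e))
    {G : ℤ → ℤ → ℂ} (hG : Homog G) (h : EqC (act 0 (-1) (((5 : ℕ) : ℤ) ^ l) 0 G) (-G)) :
    EqC (act 0 (-1) e 0 (act 1 0 0 (5 ^ k) G)) (-(act 1 0 0 (5 ^ k) G)) := by
  rw [Nat.cast_ofNat] at h
  refine trans_Bal (k := k) ?_ h
  intro p q hpq
  simp only [act]
  have hne : -q ≠ 0 ∨ 5 ^ k * (e * p) ≠ 0 := by
    rcases hpq with h | h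
    · exact Or.inr (mul_ne_zero (fne_Bal _) (mul_ne_zero he h))
    · exact Or.inl (neg_ne_zero.2 h)
  have h1 := hG (5 ^ k) (-q) (5 ^ k * (e * p)) (fne_Bal k) hne
  rw [show 1 * (0 * p + -1 * q) + 0 * (e * p + 0 * q) = -q by ring,
    show 0 * (0 * p + -1 * q) + 5 ^ k * (e * p + 0 * q) = 5 ^ k * (e * p) by ring,
    show 0 * p + -1 * (5 ^ k * q) = 5 ^ k * (-q) by ring,
    show 5 ^ l * p + 0 * (5 ^ k * q) = 5 ^ k * (5 ^ k * (e * p)) by rw [hl]; ring, h1]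

private theorem rel4_Bal {k : ℕ} {G : ℤ → ℤ → ℂ} (h : EqC (act (-1) 0 0 1 G) G) :
    EqC (act (-1) 0 0 1 (act 1 0 0 (5 ^ k) G)) (act 1 0 0 (5 ^ k) G) := by
  refine trans_Bal (k := k) ?_ h
  intro p q _
  simp only [act]
  congr 1 <;> ring

theorem hBalE : EBal := by
  intro k G hk
  refine ⟨?_, ?_, ?_⟩
  · rintro ⟨h1, h2, h3, h4, h5⟩
    exact ⟨symH_Bal (by omega) h1, rel1_Bal hk h1.1 h2, rel2_Bal (by omega) h3,
      rel3_Bal one_ne_zero (by rw [mul_one, ← pow_add]; congr 1; omega) h1.1 h4, rel4_Bal h5⟩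
  · rintro ⟨h1, h2, h3, h4, h5⟩
    refine ⟨symH_Bal (by omega) h1, rel1_Bal hk h1.1 h2, rel2_Bal (by omega) h3, ?_, rel4_Bal h5⟩
    exact rel3_Bal (by norm_num) (by rw [← pow_succ, ← pow_add]; congr 1; omega) h1.1 h4
  · rintro hG ⟨C, hC⟩
    refine ⟨C, ?_⟩
    intro p q hpq
    have hne : 5 ^ k * p ≠ 0 ∨ q ≠ 0 := by
      rcases hpq with h | h
      · exact Or.inl (mul_ne_zero (fne_Bal k) h)
      · exact Or.inr h
    have h1 := hC (5 ^ k * p) q hne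
    simp only [act] at h1
    rw [show 1 * (5 ^ k * p) + 0 * q = 5 ^ k * p by ring,
      show 0 * (5 ^ k * p) + 5 ^ k * q = 5 ^ k * q by ring, hG (5 ^ k) p q (fne_Bal k) hpq] at h1
    exact h1

end Pool.Agent.Helper36.TL
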